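import Mathlib

/-!
# A two-dimensional subtraction game that is not eventually periodic

The ruleset `{(1,1), (2,2), (3,3), (0,5), (6,1)}` is not eventually periodic: along the line
`y = x - 2` the outcomes are not eventually periodic.

On the diagonal `x - y = 5 k + 2` the P-positions are spaced `4` apart, except that a gap `5`
occurs whenever a particle crosses the diagonal and a gap `6` where the particle turns round.
The particle moves back and forth between two walls; each turn pushes a wall outwards, so that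
the crossing times of a fixed diagonal grow quadratically.  The explicit description of all
P-positions with `x - y ≡ 2 (mod 5)` in the time window `[R_j - 5, R_{j+1}]`, where
`R_j = 12 j ^ 2 + 8 j`, is the predicate `F j R_j`.
-/

set_option autoImplicit false

namespace Pool.Agent.Results.MP_1f0dde_co.BouncingRuleset

section Definitions

/-- The P-positions (the player to move loses) of the two-dimensional subtraction game with
ruleset `S`: a position is a P-position iff no move leads to a P-position.  A move subtracts some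
nonzero `s ∈ S`, keeping both coordinates nonnegative. -/
def PPosition (S : Finset (ℕ × ℕ)) (v : ℕ × ℕ) : Prop :=
  ∀ s ∈ S, s ≠ (0, 0) → s.1 ≤ v.1 → s.2 ≤ v.2 → ¬ PPosition S (v.1 - s.1, v.2 - s.2)
termination_by v.1 + v.2
decreasing_by
  rename_i h0 h1 h2
  have h3 : ¬ (s.1 = 0 ∧ s.2 = 0) := fun h => h0 (Prod.ext h.1 h.2)
  omega

/-- The line `f(x) = p x / q + m`. -/
def line (p q : ℕ) (m : ℚ) (x : ℤ) : ℚ := (p : ℚ) * x / q + m

/-- The outcomes on the line `f(x) = p x / q + m` are eventually periodic: there are `T > 0` and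
`x' ≥ 0` such that `f(x + T)` is an integer whenever `f(x)` is, and `(x, f(x))` and
`(x + T, f(x + T))` have the same outcome for all `x ≥ x'` (at the lattice points). -/
def PeriodicOnLine (S : Finset (ℕ × ℕ)) (p q : ℕ) (m : ℚ) : Prop :=
  ∃ T x' : ℕ, 0 < T ∧
    (∀ x : ℤ, (∃ y : ℤ, (y : ℚ) = line p q m x) → ∃ y : ℤ, (y : ℚ) = line p q m (x + T)) ∧
    ∀ x y y' : ℕ, x' ≤ x → (y : ℚ) = line p q m x → (y' : ℚ) = line p q m (x + T) →
      (PPosition S (x, y) ↔ PPosition S (x + T, y'))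

/-- The ruleset `S` is eventually periodic: the outcomes are eventually periodic on every line
`f(x) = p x / q + m` with integers `p, q > 0` and rational `m` that contains infinitely many
lattice points. -/
def EventuallyPeriodic (S : Finset (ℕ × ℕ)) : Prop :=
  ∀ (p q : ℕ) (m : ℚ), 0 < p → 0 < q →
    {v : ℤ × ℤ | (v.2 : ℚ) = line p q m v.1}.Infinite → PeriodicOnLine S p q m

end Definitions

/-! ### The explicit description -/

section Explicit

/-- The pattern on a diagonal that the particle has reached: P-positions `4` apart with gap `5`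
after `R - 2 (j - k)`, after `R + 1 + 6 (j - k)` and after `R + 22 j + 18 + 2 k`. -/
def G (j R k y : ℤ) : Prop :=
  (y ≤ R - 2 * (j - k) ∧ (y - 2 * j - 2 * k) % 4 = 0) ∨
  (R - 2 * (j - k) + 5 ≤ y ∧ y ≤ R + 1 + 6 * (j - k) ∧ (y - 2 * j - 2 * k) % 4 = 1) ∨
  (R + 6 + 6 * (j - k) ≤ y ∧ y ≤ R + 22 * j + 18 + 2 * k ∧ (y - 2 * j - 2 * k) % 4 = 2) ∨
  (R + 22 * j + 23 + 2 * k ≤ y ∧ (y - 2 * j - 2 * k) % 4 = 3)

/-- The pattern on a diagonal to the left that the particle has not reached yet. -/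
def U (k y : ℤ) : Prop := (k % 2 = 0 ∧ (y + k) % 4 = 3) ∨ (k % 2 = 1 ∧ (y + k) % 4 = 2)

lemma G0 {j R k y : ℤ} (h : (y - 2 * j - 2 * k) % 4 = 0) : G j R k y ↔ y ≤ R - 2 * (j - k) := by
  unfold G; rw [h]; norm_num
lemma G1 {j R k y : ℤ} (h : (y - 2 * j - 2 * k) % 4 = 1) :
    G j R k y ↔ R - 2 * (j - k) + 5 ≤ y ∧ y ≤ R + 1 + 6 * (j - k) := by
  unfold G; rw [h]; norm_num
lemma G2 {j R k y : ℤ} (h : (y - 2 * j - 2 * k) % 4 = 2) :
    G j R k y ↔ R + 6 + 6 * (j - k) ≤ y ∧ y ≤ R + 22 * j + 18 + 2 * k := by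
  unfold G; rw [h]; norm_num
lemma G3 {j R k y : ℤ} (h : (y - 2 * j - 2 * k) % 4 = 3) :
    G j R k y ↔ R + 22 * j + 23 + 2 * k ≤ y := by
  unfold G; rw [h]; norm_num

/-- The local rule between three neighbouring visited diagonals. -/
lemma G_int {j R k y : ℤ} (hR4 : R % 4 = 0) :
    (j - 1 ≥ k) → (-2 * j - 1 ≤ k) →
    (G j R k y ↔ ¬ G j R k (y-1) ∧ ¬ G j R k (y-2) ∧ ¬ G j R k (y-3) ∧ ¬ G j R (k+1) (y-5) ∧
      ¬ G j R (k-1) (y-1)) := by
  intro hk1 hk2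
  have hm : (y - 2 * j - 2 * k) % 4 = 0 ∨ (y - 2 * j - 2 * k) % 4 = 1 ∨
    (y - 2 * j - 2 * k) % 4 = 2 ∨ (y - 2 * j - 2 * k) % 4 = 3 := by omega
  rcases hm with m | m | m | m
  · rw [G0 m, G3 (k := k) (y := y - 1) (by omega), G2 (k := k) (y := y - 2) (by omega),
      G1 (k := k) (y := y - 3) (by omega), G1 (k := k + 1) (by omega), G1 (k := k - 1) (by omega)]
    omega
  · rw [G1 m, G0 (k := k) (y := y - 1) (by omega), G3 (k := k) (y := y - 2) (by omega),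
      G2 (k := k) (y := y - 3) (by omega), G2 (k := k + 1) (by omega), G2 (k := k - 1) (by omega)]
    omega
  · rw [G2 m, G1 (k := k) (y := y - 1) (by omega), G0 (k := k) (y := y - 2) (by omega),
      G3 (k := k) (y := y - 3) (by omega), G3 (k := k + 1) (by omega), G3 (k := k - 1) (by omega)]
    omega
  · rw [G3 m, G2 (k := k) (y := y - 1) (by omega), G1 (k := k) (y := y - 2) (by omega),
      G0 (k := k) (y := y - 3) (by omega), G0 (k := k + 1) (by omega), G0 (k := k - 1) (by omega)]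
    omega


/-- The diagonal `k = j + 1` -/
lemma G_b {j R y : ℤ} (hR4 : R % 4 = 0) (h2 : y ≤ R + 24 * j + 20) :
    (y % 4 = 0 ↔ ¬ ((y - 1) % 4 = 0) ∧ ¬ ((y - 2) % 4 = 0) ∧ ¬ ((y - 3) % 4 = 0) ∧
      ¬ ((y - 5) % 4 = 0) ∧ ¬ G j R j (y - 1)) := by
  have hm : y % 4 = 0 ∨ y % 4 = 1 ∨ y % 4 = 2 ∨ y % 4 = 3 := by omega
  rcases hm with m | m | m | m
  · rw [G3 (k := j) (by omega)]
    omega
  · rw [G0 (k := j) (by omega)]
    omega
  · rw [G1 (k := j) (by omega)]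
    omega
  · rw [G2 (k := j) (by omega)]
    omega

/-- The diagonal `k = j` -/
lemma G_c {j R y : ℤ} (hR4 : R % 4 = 0) (h1 : R + 1 ≤ y) (h2 : y ≤ R + 24 * j + 20) :
    (G j R j y ↔ ¬ G j R j (y - 1) ∧ ¬ G j R j (y - 2) ∧ ¬ G j R j (y - 3) ∧
      ¬ ((y - 5) % 4 = 0) ∧ ¬ G j R (j - 1) (y - 1)) := by
  have hm : y % 4 = 0 ∨ y % 4 = 1 ∨ y % 4 = 2 ∨ y % 4 = 3 := by omega
  rcases hm with m | m | m | m
  · rw [G0 (k := j) (y := y) (by omega), G3 (k := j) (y := y - 1) (by omega),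
      G2 (k := j) (y := y - 2) (by omega), G1 (k := j) (y := y - 3) (by omega),
      G1 (k := j - 1) (by omega)]
    omega
  · rw [G1 (k := j) (y := y) (by omega), G0 (k := j) (y := y - 1) (by omega),
      G3 (k := j) (y := y - 2) (by omega), G2 (k := j) (y := y - 3) (by omega),
      G2 (k := j - 1) (by omega)]
    omega
  · rw [G2 (k := j) (y := y) (by omega), G1 (k := j) (y := y - 1) (by omega),
      G0 (k := j) (y := y - 2) (by omega), G3 (k := j) (y := y - 3) (by omega),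
      G3 (k := j - 1) (by omega)]
    omega
  · rw [G3 (k := j) (y := y) (by omega), G2 (k := j) (y := y - 1) (by omega),
      G1 (k := j) (y := y - 2) (by omega), G0 (k := j) (y := y - 3) (by omega),
      G0 (k := j - 1) (by omega)]
    omega

/-- The diagonal `k = -2 j - 2` -/
lemma G_e {j R y : ℤ} (hj : 1 ≤ j) (hR : 20 * j ≤ R) (hR4 : R % 4 = 0) (h1 : R + 1 ≤ y)
    (h2 : y ≤ R + 24 * j + 20) :
    (G j R (-2 * j - 2) y ↔ ¬ G j R (-2 * j - 2) (y - 1) ∧ ¬ G j R (-2 * j - 2) (y - 2) ∧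
      ¬ G j R (-2 * j - 2) (y - 3) ∧ ¬ G j R (-2 * j - 1) (y - 5) ∧
      ¬ (0 ≤ y - 1 + 5 * (-2 * j - 3) + 2 ∧ (y - 1 - 2 * j) % 4 = 1)) := by
  have hm : (y - 2 * j) % 4 = 0 ∨ (y - 2 * j) % 4 = 1 ∨
    (y - 2 * j) % 4 = 2 ∨ (y - 2 * j) % 4 = 3 := by omega
  rcases hm with m | m | m | m
  · rw [G0 (k := -2 * j - 2) (y := y) (by omega), G3 (k := -2 * j - 2) (y := y - 1) (by omega),
      G2 (k := -2 * j - 2) (y := y - 2) (by omega), G1 (k := -2 * j - 2) (y := y - 3) (by omega),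
      G1 (k := -2 * j - 1) (by omega)]
    omega
  · rw [G1 (k := -2 * j - 2) (y := y) (by omega), G0 (k := -2 * j - 2) (y := y - 1) (by omega),
      G3 (k := -2 * j - 2) (y := y - 2) (by omega), G2 (k := -2 * j - 2) (y := y - 3) (by omega),
      G2 (k := -2 * j - 1) (by omega)]
    omega
  · rw [G2 (k := -2 * j - 2) (y := y) (by omega), G1 (k := -2 * j - 2) (y := y - 1) (by omega),
      G0 (k := -2 * j - 2) (y := y - 2) (by omega), G3 (k := -2 * j - 2) (y := y - 3) (by omega),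
      G3 (k := -2 * j - 1) (by omega)]
    omega
  · rw [G3 (k := -2 * j - 2) (y := y) (by omega), G2 (k := -2 * j - 2) (y := y - 1) (by omega),
      G1 (k := -2 * j - 2) (y := y - 2) (by omega), G0 (k := -2 * j - 2) (y := y - 3) (by omega),
      G0 (k := -2 * j - 1) (by omega)]
    omega

lemma U_even' {k y : ℤ} (h : k % 2 = 0) : U k y ↔ (y + k) % 4 = 3 := by
  unfold U; omega
lemma U_odd' {k y : ℤ} (h : k % 2 = 1) : U k y ↔ (y + k) % 4 = 2 := by
  unfold U; omega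

/-- The diagonal `k = -2 j - 3` -/
lemma G_f {j R y : ℤ} (hj : 1 ≤ j) (hR : 20 * j ≤ R) (hR4 : R % 4 = 0) (h1 : R + 1 ≤ y)
    (h2 : y ≤ R + 24 * j + 20) (hx : 0 ≤ y + 5 * (-2 * j - 3) + 2) :
    (U (-2 * j - 3) y ↔
      ¬ (0 ≤ y - 1 + 5 * (-2 * j - 3) + 2 ∧ U (-2 * j - 3) (y - 1)) ∧
      ¬ (0 ≤ y - 2 + 5 * (-2 * j - 3) + 2 ∧ U (-2 * j - 3) (y - 2)) ∧
      ¬ (0 ≤ y - 3 + 5 * (-2 * j - 3) + 2 ∧ U (-2 * j - 3) (y - 3)) ∧
      ¬ G j R (-2 * j - 2) (y - 5) ∧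
      ¬ (0 ≤ y - 1 + 5 * (-2 * j - 4) + 2 ∧ U (-2 * j - 4) (y - 1))) := by
  rw [U_odd' (by omega), U_odd' (by omega), U_odd' (by omega), U_odd' (by omega),
    U_even' (by omega)]
  have hm : (y - 2 * j) % 4 = 0 ∨ (y - 2 * j) % 4 = 1 ∨
    (y - 2 * j) % 4 = 2 ∨ (y - 2 * j) % 4 = 3 := by omega
  rcases hm with m | m | m | m
  · rw [G3 (k := -2 * j - 2) (by omega)]
    omega
  · rw [G0 (k := -2 * j - 2) (by omega)]
    omega
  · rw [G1 (k := -2 * j - 2) (by omega)]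
    omega
  · rw [G2 (k := -2 * j - 2) (by omega)]
    omega

/-- The diagonals not reached yet on the left -/
lemma G_g {k y : ℤ} (hx : 0 ≤ y + 5 * k + 2) :
    (U k y ↔
      ¬ (0 ≤ y - 1 + 5 * k + 2 ∧ U k (y - 1)) ∧
      ¬ (0 ≤ y - 2 + 5 * k + 2 ∧ U k (y - 2)) ∧
      ¬ (0 ≤ y - 3 + 5 * k + 2 ∧ U k (y - 3)) ∧
      ¬ U (k + 1) (y - 5) ∧
      ¬ (0 ≤ y - 1 + 5 * (k - 1) + 2 ∧ U (k - 1) (y - 1))) := by
  have hk : k % 2 = 0 ∨ k % 2 = 1 := by omega
  rcases hk with hk | hk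
  · rw [U_even' (by omega), U_even' (by omega), U_even' (by omega), U_even' (by omega),
      U_odd' (by omega), U_odd' (by omega)]
    omega
  · rw [U_odd' (by omega), U_odd' (by omega), U_odd' (by omega), U_odd' (by omega),
      U_even' (by omega), U_even' (by omega)]
    omega

/-- The P-positions in the time window number `j`. -/
def F (j R k y : ℤ) : Prop :=
  0 ≤ y ∧ 0 ≤ y + 5 * k + 2 ∧
    ((j + 1 ≤ k ∧ y % 4 = 0) ∨ (-2 * j - 2 ≤ k ∧ k ≤ j ∧ G j R k y) ∨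
      (k ≤ -2 * j - 3 ∧ U k y))

lemma F_right {j R k y : ℤ} (hj : 0 ≤ j) (h : j + 1 ≤ k) :
    F j R k y ↔ 0 ≤ y ∧ 0 ≤ y + 5 * k + 2 ∧ y % 4 = 0 := by
  unfold F
  constructor
  · rintro ⟨h1, h2, ⟨h3, h4⟩ | ⟨h3, h4, h5⟩ | ⟨h3, h4⟩⟩
    · exact ⟨h1, h2, h4⟩
    · omega
    · omega
  · rintro ⟨h1, h2, h3⟩
    exact ⟨h1, h2, Or.inl ⟨h, h3⟩⟩

lemma F_mid {j R k y : ℤ} (h : -2 * j - 2 ≤ k) (h' : k ≤ j) :
    F j R k y ↔ 0 ≤ y ∧ 0 ≤ y + 5 * k + 2 ∧ G j R k y := by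
  unfold F
  constructor
  · rintro ⟨h1, h2, ⟨h3, h4⟩ | ⟨h3, h4, h5⟩ | ⟨h3, h4⟩⟩
    · omega
    · exact ⟨h1, h2, h5⟩
    · omega
  · rintro ⟨h1, h2, h3⟩
    exact ⟨h1, h2, Or.inr (Or.inl ⟨h, h', h3⟩)⟩

lemma F_left {j R k y : ℤ} (hj : 0 ≤ j) (h : k ≤ -2 * j - 3) :
    F j R k y ↔ 0 ≤ y ∧ 0 ≤ y + 5 * k + 2 ∧ U k y := by
  unfold F
  constructor
  · rintro ⟨h1, h2, ⟨h3, h4⟩ | ⟨h3, h4, h5⟩ | ⟨h3, h4⟩⟩
    · omega
    · omega
    · exact ⟨h1, h2, h4⟩
  · rintro ⟨h1, h2, h3⟩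
    exact ⟨h1, h2, Or.inr (Or.inr ⟨h, h3⟩)⟩

/-- The local rule of the game on the diagonals `x - y ≡ 2 (mod 5)`. -/
def Rule (Q : ℤ → ℤ → Prop) (k y : ℤ) : Prop :=
  Q k y ↔ ¬ Q k (y - 1) ∧ ¬ Q k (y - 2) ∧ ¬ Q k (y - 3) ∧ ¬ Q (k + 1) (y - 5) ∧
    ¬ Q (k - 1) (y - 1)

instance (j R k y : ℤ) : Decidable (G j R k y) := by unfold G; infer_instance
instance (k y : ℤ) : Decidable (U k y) := by unfold U; infer_instance
instance (j R k y : ℤ) : Decidable (F j R k y) := by unfold F; infer_instance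

lemma rule_zero {k y : ℤ} (h1 : 0 ≤ y) (h2 : y ≤ 20) (hx : 0 ≤ y + 5 * k + 2) :
    Rule (F 0 0) k y := by
  unfold Rule
  rcases lt_or_ge k 2 with hk | hk
  · have hk' : -4 ≤ k := by omega
    interval_cases k <;> interval_cases y <;> first | omega | decide
  · rw [F_right (by norm_num) (by omega), F_right (by norm_num) (by omega),
      F_right (by norm_num) (by omega), F_right (by norm_num) (by omega),
      F_right (by norm_num) (by omega), F_right (by norm_num) (by omega)]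
    omega

lemma overlap {j R k y : ℤ} (hj : 0 ≤ j) (hR4 : R % 4 = 0)
    (h1 : R + 24 * j + 20 - 5 ≤ y) (h2 : y ≤ R + 24 * j + 20) :
    F j R k y ↔ F (j + 1) (R + 24 * j + 20) k y := by
  rcases lt_or_ge (j + 1) k with hk | hk
  · rw [F_right hj (by omega), F_right (by omega) (by omega)]
  rcases lt_or_ge j k with hk1 | hk1
  · have hk2 : k = j + 1 := by omega
    subst hk2
    rw [F_right hj (by omega), F_mid (by omega) (by omega)]
    have hm : y % 4 = 0 ∨ y % 4 = 1 ∨ y % 4 = 2 ∨ y % 4 = 3 := by omega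
    rcases hm with m | m | m | m
    · rw [G0 (k := j + 1) (by omega)]; omega
    · rw [G1 (k := j + 1) (by omega)]; omega
    · rw [G2 (k := j + 1) (by omega)]; omega
    · rw [G3 (k := j + 1) (by omega)]; omega
  rcases lt_or_ge k (-2 * (j + 1) - 2) with hk2 | hk2
  · rw [F_left hj (by omega), F_left (by omega) (by omega)]
  rcases lt_or_ge k (-2 * j - 2) with hk3 | hk3
  · -- `k = -2 j - 3` or `k = -2 j - 4`
    rw [F_left hj (by omega), F_mid (by omega) (by omega)]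
    have hm : (y - 2 * (j + 1) - 2 * k) % 4 = 0 ∨ (y - 2 * (j + 1) - 2 * k) % 4 = 1 ∨
      (y - 2 * (j + 1) - 2 * k) % 4 = 2 ∨ (y - 2 * (j + 1) - 2 * k) % 4 = 3 := by omega
    have hk4 : k = -2 * j - 3 ∨ k = -2 * j - 4 := by omega
    rcases hk4 with hk4 | hk4
    · subst hk4
      rw [U_odd' (by omega)]
      rcases hm with m | m | m | m
      · rw [G0 m]; omega
      · rw [G1 m]; omega
      · rw [G2 m]; omega
      · rw [G3 m]; omega
    · subst hk4
      rw [U_even' (by omega)]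
      rcases hm with m | m | m | m
      · rw [G0 m]; omega
      · rw [G1 m]; omega
      · rw [G2 m]; omega
      · rw [G3 m]; omega
  · rw [F_mid (by omega) (by omega), F_mid (by omega) (by omega)]
    have hm : (y - 2 * (j + 1) - 2 * k) % 4 = 0 ∨ (y - 2 * (j + 1) - 2 * k) % 4 = 1 ∨
      (y - 2 * (j + 1) - 2 * k) % 4 = 2 ∨ (y - 2 * (j + 1) - 2 * k) % 4 = 3 := by omega
    rcases hm with m | m | m | m
    · rw [G0 m, G2 (j := j) (by omega)]; omega
    · rw [G1 m, G3 (j := j) (by omega)]; omega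
    · rw [G2 m, G0 (j := j) (by omega)]; omega
    · rw [G3 m, G1 (j := j) (by omega)]; omega


lemma rule_pos {j R k y : ℤ} (hj : 1 ≤ j) (hR : 20 * j ≤ R) (hR4 : R % 4 = 0) (h1 : R + 1 ≤ y)
    (h2 : y ≤ R + 24 * j + 20) (hx : 0 ≤ y + 5 * k + 2) : Rule (F j R) k y := by
  unfold Rule
  rcases lt_or_ge (j + 1) k with hk | hk
  · rw [F_right (by omega) (by omega), F_right (by omega) (by omega),
      F_right (by omega) (by omega), F_right (by omega) (by omega),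
      F_right (by omega) (by omega), F_right (by omega) (by omega)]
    omega
  rcases lt_or_ge j k with hk1 | hk1
  · have hk2 : k = j + 1 := by omega
    subst hk2
    rw [F_right (by omega) (by omega), F_right (by omega) (by omega),
      F_right (by omega) (by omega), F_right (by omega) (by omega),
      F_right (by omega) (by omega), F_mid (by omega) (by omega)]
    have h := G_b (j := j) hR4 h2
    rw [show j + 1 - 1 = j by ring]
    rw [show (0 ≤ y ∧ 0 ≤ y + 5 * (j + 1) + 2 ∧ y % 4 = 0) ↔ y % 4 = 0 from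
        ⟨fun h => h.2.2, fun h => ⟨by omega, by omega, h⟩⟩,
      show (0 ≤ y - 1 ∧ 0 ≤ y - 1 + 5 * (j + 1) + 2 ∧ (y - 1) % 4 = 0) ↔ (y - 1) % 4 = 0 from
        ⟨fun h => h.2.2, fun h => ⟨by omega, by omega, h⟩⟩,
      show (0 ≤ y - 2 ∧ 0 ≤ y - 2 + 5 * (j + 1) + 2 ∧ (y - 2) % 4 = 0) ↔ (y - 2) % 4 = 0 from
        ⟨fun h => h.2.2, fun h => ⟨by omega, by omega, h⟩⟩,
      show (0 ≤ y - 3 ∧ 0 ≤ y - 3 + 5 * (j + 1) + 2 ∧ (y - 3) % 4 = 0) ↔ (y - 3) % 4 = 0 from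
        ⟨fun h => h.2.2, fun h => ⟨by omega, by omega, h⟩⟩,
      show (0 ≤ y - 5 ∧ 0 ≤ y - 5 + 5 * (j + 1 + 1) + 2 ∧ (y - 5) % 4 = 0) ↔ (y - 5) % 4 = 0 from
        ⟨fun h => h.2.2, fun h => ⟨by omega, by omega, h⟩⟩,
      show (0 ≤ y - 1 ∧ 0 ≤ y - 1 + 5 * j + 2 ∧ G j R j (y - 1)) ↔ G j R j (y - 1) from
        ⟨fun h => h.2.2, fun h => ⟨by omega, by omega, h⟩⟩]
    exact h
  rcases eq_or_lt_of_le hk1 with hk2 | hk2
  · subst hk2
    rw [F_mid (by omega) (by omega), F_mid (by omega) (by omega), F_mid (by omega) (by omega),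
      F_mid (by omega) (by omega), F_right (by omega) (by omega), F_mid (by omega) (by omega)]
    have h := G_c (j := k) hR4 h1 h2
    rw [show (0 ≤ y ∧ 0 ≤ y + 5 * k + 2 ∧ G k R k y) ↔ G k R k y from
        ⟨fun h => h.2.2, fun h => ⟨by omega, by omega, h⟩⟩,
      show (0 ≤ y - 1 ∧ 0 ≤ y - 1 + 5 * k + 2 ∧ G k R k (y - 1)) ↔ G k R k (y - 1) from
        ⟨fun h => h.2.2, fun h => ⟨by omega, by omega, h⟩⟩,
      show (0 ≤ y - 2 ∧ 0 ≤ y - 2 + 5 * k + 2 ∧ G k R k (y - 2)) ↔ G k R k (y - 2) from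
        ⟨fun h => h.2.2, fun h => ⟨by omega, by omega, h⟩⟩,
      show (0 ≤ y - 3 ∧ 0 ≤ y - 3 + 5 * k + 2 ∧ G k R k (y - 3)) ↔ G k R k (y - 3) from
        ⟨fun h => h.2.2, fun h => ⟨by omega, by omega, h⟩⟩,
      show (0 ≤ y - 5 ∧ 0 ≤ y - 5 + 5 * (k + 1) + 2 ∧ (y - 5) % 4 = 0) ↔ (y - 5) % 4 = 0 from
        ⟨fun h => h.2.2, fun h => ⟨by omega, by omega, h⟩⟩,
      show (0 ≤ y - 1 ∧ 0 ≤ y - 1 + 5 * (k - 1) + 2 ∧ G k R (k - 1) (y - 1)) ↔
          G k R (k - 1) (y - 1) from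
        ⟨fun h => h.2.2, fun h => ⟨by omega, by omega, h⟩⟩]
    exact h
  rcases lt_or_ge (-2 * j - 2) k with hk3 | hk3
  · rw [F_mid (by omega) (by omega), F_mid (by omega) (by omega), F_mid (by omega) (by omega),
      F_mid (by omega) (by omega), F_mid (by omega) (by omega), F_mid (by omega) (by omega)]
    have h := G_int (j := j) (y := y) hR4 (k := k) (by omega) (by omega)
    rw [show (0 ≤ y ∧ 0 ≤ y + 5 * k + 2 ∧ G j R k y) ↔ G j R k y from
        ⟨fun h => h.2.2, fun h => ⟨by omega, by omega, h⟩⟩,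
      show (0 ≤ y - 1 ∧ 0 ≤ y - 1 + 5 * k + 2 ∧ G j R k (y - 1)) ↔ G j R k (y - 1) from
        ⟨fun h => h.2.2, fun h => ⟨by omega, by omega, h⟩⟩,
      show (0 ≤ y - 2 ∧ 0 ≤ y - 2 + 5 * k + 2 ∧ G j R k (y - 2)) ↔ G j R k (y - 2) from
        ⟨fun h => h.2.2, fun h => ⟨by omega, by omega, h⟩⟩,
      show (0 ≤ y - 3 ∧ 0 ≤ y - 3 + 5 * k + 2 ∧ G j R k (y - 3)) ↔ G j R k (y - 3) from
        ⟨fun h => h.2.2, fun h => ⟨by omega, by omega, h⟩⟩,
      show (0 ≤ y - 5 ∧ 0 ≤ y - 5 + 5 * (k + 1) + 2 ∧ G j R (k + 1) (y - 5)) ↔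
          G j R (k + 1) (y - 5) from
        ⟨fun h => h.2.2, fun h => ⟨by omega, by omega, h⟩⟩,
      show (0 ≤ y - 1 ∧ 0 ≤ y - 1 + 5 * (k - 1) + 2 ∧ G j R (k - 1) (y - 1)) ↔
          G j R (k - 1) (y - 1) from
        ⟨fun h => h.2.2, fun h => ⟨by omega, by omega, h⟩⟩]
    exact h
  rcases eq_or_lt_of_le hk3 with hk4 | hk4
  · subst hk4
    rw [F_mid (by omega) (by omega), F_mid (by omega) (by omega), F_mid (by omega) (by omega),
      F_mid (by omega) (by omega), F_mid (by omega) (by omega), F_left (by omega) (by omega)]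
    have h := G_e (j := j) (y := y) hj hR hR4 h1 h2
    rw [show (0 ≤ y ∧ 0 ≤ y + 5 * (-2 * j - 2) + 2 ∧ G j R (-2 * j - 2) y) ↔
          G j R (-2 * j - 2) y from
        ⟨fun h => h.2.2, fun h => ⟨by omega, by omega, h⟩⟩,
      show (0 ≤ y - 1 ∧ 0 ≤ y - 1 + 5 * (-2 * j - 2) + 2 ∧ G j R (-2 * j - 2) (y - 1)) ↔
          G j R (-2 * j - 2) (y - 1) from
        ⟨fun h => h.2.2, fun h => ⟨by omega, by omega, h⟩⟩,
      show (0 ≤ y - 2 ∧ 0 ≤ y - 2 + 5 * (-2 * j - 2) + 2 ∧ G j R (-2 * j - 2) (y - 2)) ↔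
          G j R (-2 * j - 2) (y - 2) from
        ⟨fun h => h.2.2, fun h => ⟨by omega, by omega, h⟩⟩,
      show (0 ≤ y - 3 ∧ 0 ≤ y - 3 + 5 * (-2 * j - 2) + 2 ∧ G j R (-2 * j - 2) (y - 3)) ↔
          G j R (-2 * j - 2) (y - 3) from
        ⟨fun h => h.2.2, fun h => ⟨by omega, by omega, h⟩⟩,
      show -2 * j - 2 + 1 = -2 * j - 1 by ring,
      show (0 ≤ y - 5 ∧ 0 ≤ y - 5 + 5 * (-2 * j - 1) + 2 ∧ G j R (-2 * j - 1) (y - 5)) ↔
          G j R (-2 * j - 1) (y - 5) from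
        ⟨fun h => h.2.2, fun h => ⟨by omega, by omega, h⟩⟩,
      show -2 * j - 2 - 1 = -2 * j - 3 by ring,
      show (0 ≤ y - 1 ∧ 0 ≤ y - 1 + 5 * (-2 * j - 3) + 2 ∧ U (-2 * j - 3) (y - 1)) ↔
          (0 ≤ y - 1 + 5 * (-2 * j - 3) + 2 ∧ (y - 1 - 2 * j) % 4 = 1) from
        ⟨fun h => ⟨h.2.1, by rw [U_odd' (by omega)] at h; omega⟩,
          fun h => ⟨by omega, h.1, by rw [U_odd' (by omega)]; omega⟩⟩]
    exact h
  rcases eq_or_lt_of_le (show k ≤ -2 * j - 3 by omega) with hk5 | hk5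
  · subst hk5
    rw [F_left (by omega) (by omega), F_left (by omega) (by omega), F_left (by omega) (by omega),
      F_left (by omega) (by omega), F_mid (by omega) (by omega), F_left (by omega) (by omega)]
    have h := G_f (j := j) (y := y) hj hR hR4 h1 h2 hx
    rw [show (0 ≤ y ∧ 0 ≤ y + 5 * (-2 * j - 3) + 2 ∧ U (-2 * j - 3) y) ↔
          U (-2 * j - 3) y from
        ⟨fun h => h.2.2, fun h => ⟨by omega, by omega, h⟩⟩,
      show (0 ≤ y - 1 ∧ 0 ≤ y - 1 + 5 * (-2 * j - 3) + 2 ∧ U (-2 * j - 3) (y - 1)) ↔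
          (0 ≤ y - 1 + 5 * (-2 * j - 3) + 2 ∧ U (-2 * j - 3) (y - 1)) from
        ⟨fun h => h.2, fun h => ⟨by omega, h⟩⟩,
      show (0 ≤ y - 2 ∧ 0 ≤ y - 2 + 5 * (-2 * j - 3) + 2 ∧ U (-2 * j - 3) (y - 2)) ↔
          (0 ≤ y - 2 + 5 * (-2 * j - 3) + 2 ∧ U (-2 * j - 3) (y - 2)) from
        ⟨fun h => h.2, fun h => ⟨by omega, h⟩⟩,
      show (0 ≤ y - 3 ∧ 0 ≤ y - 3 + 5 * (-2 * j - 3) + 2 ∧ U (-2 * j - 3) (y - 3)) ↔
          (0 ≤ y - 3 + 5 * (-2 * j - 3) + 2 ∧ U (-2 * j - 3) (y - 3)) from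
        ⟨fun h => h.2, fun h => ⟨by omega, h⟩⟩,
      show -2 * j - 3 + 1 = -2 * j - 2 by ring,
      show (0 ≤ y - 5 ∧ 0 ≤ y - 5 + 5 * (-2 * j - 2) + 2 ∧ G j R (-2 * j - 2) (y - 5)) ↔
          G j R (-2 * j - 2) (y - 5) from
        ⟨fun h => h.2.2, fun h => ⟨by omega, by omega, h⟩⟩,
      show -2 * j - 3 - 1 = -2 * j - 4 by ring,
      show (0 ≤ y - 1 ∧ 0 ≤ y - 1 + 5 * (-2 * j - 4) + 2 ∧ U (-2 * j - 4) (y - 1)) ↔
          (0 ≤ y - 1 + 5 * (-2 * j - 4) + 2 ∧ U (-2 * j - 4) (y - 1)) from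
        ⟨fun h => h.2, fun h => ⟨by omega, h⟩⟩]
    exact h
  · rw [F_left (by omega) (by omega), F_left (by omega) (by omega), F_left (by omega) (by omega),
      F_left (by omega) (by omega), F_left (by omega) (by omega), F_left (by omega) (by omega)]
    have h := G_g (k := k) (y := y) hx
    rw [show (0 ≤ y ∧ 0 ≤ y + 5 * k + 2 ∧ U k y) ↔ U k y from
        ⟨fun h => h.2.2, fun h => ⟨by omega, by omega, h⟩⟩,
      show (0 ≤ y - 1 ∧ 0 ≤ y - 1 + 5 * k + 2 ∧ U k (y - 1)) ↔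
          (0 ≤ y - 1 + 5 * k + 2 ∧ U k (y - 1)) from
        ⟨fun h => h.2, fun h => ⟨by omega, h⟩⟩,
      show (0 ≤ y - 2 ∧ 0 ≤ y - 2 + 5 * k + 2 ∧ U k (y - 2)) ↔
          (0 ≤ y - 2 + 5 * k + 2 ∧ U k (y - 2)) from
        ⟨fun h => h.2, fun h => ⟨by omega, h⟩⟩,
      show (0 ≤ y - 3 ∧ 0 ≤ y - 3 + 5 * k + 2 ∧ U k (y - 3)) ↔
          (0 ≤ y - 3 + 5 * k + 2 ∧ U k (y - 3)) from
        ⟨fun h => h.2, fun h => ⟨by omega, h⟩⟩,
      show (0 ≤ y - 5 ∧ 0 ≤ y - 5 + 5 * (k + 1) + 2 ∧ U (k + 1) (y - 5)) ↔ U (k + 1) (y - 5) from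
        ⟨fun h => h.2.2, fun h => ⟨by omega, by omega, h⟩⟩,
      show (0 ≤ y - 1 ∧ 0 ≤ y - 1 + 5 * (k - 1) + 2 ∧ U (k - 1) (y - 1)) ↔
          (0 ≤ y - 1 + 5 * (k - 1) + 2 ∧ U (k - 1) (y - 1)) from
        ⟨fun h => h.2, fun h => ⟨by omega, h⟩⟩]
    exact h

/-- Two predicates satisfying the local rule agree if they agree on five consecutive values of
`y`. -/
lemma agree {Q Q' : ℤ → ℤ → Prop} {a b : ℤ}
    (dom : ∀ k y, Q k y → 0 ≤ y ∧ 0 ≤ y + 5 * k + 2)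
    (dom' : ∀ k y, Q' k y → 0 ≤ y ∧ 0 ≤ y + 5 * k + 2)
    (base : ∀ y, a - 5 ≤ y → y < a → ∀ k, Q k y ↔ Q' k y)
    (rule : ∀ y k, a ≤ y → y ≤ b → 0 ≤ y → 0 ≤ y + 5 * k + 2 → Rule Q k y)
    (rule' : ∀ y k, a ≤ y → y ≤ b → 0 ≤ y → 0 ≤ y + 5 * k + 2 → Rule Q' k y) :
    ∀ y, a - 5 ≤ y → y ≤ b → ∀ k, Q k y ↔ Q' k y := by
  have main : ∀ n : ℕ, ∀ y : ℤ, a - 5 ≤ y → y ≤ b → y < a + n → ∀ k, Q k y ↔ Q' k y := by
    intro n
    induction n with
    | zero => intro y h1 _ h3 k; exact base y h1 (by simpa using h3) k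
    | succ n ih =>
      intro y h1 h2 h3 k
      push_cast at h3
      rcases lt_or_ge y (a + n) with h | h
      · exact ih y h1 h2 h k
      · by_cases hd : 0 ≤ y ∧ 0 ≤ y + 5 * k + 2
        · have e1 := rule y k (by omega) h2 hd.1 hd.2
          have e2 := rule' y k (by omega) h2 hd.1 hd.2
          unfold Rule at e1 e2
          rw [e1, e2, ih (y - 1) (by omega) (by omega) (by omega),
            ih (y - 2) (by omega) (by omega) (by omega),
            ih (y - 3) (by omega) (by omega) (by omega),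
            ih (y - 5) (by omega) (by omega) (by omega),
            ih (y - 1) (by omega) (by omega) (by omega)]
        · exact ⟨fun h => absurd (dom _ _ h) hd, fun h => absurd (dom' _ _ h) hd⟩
  intro y h1 h2 k
  exact main (y - a + 1).toNat y h1 h2 (by omega) k

end Explicit

section Game

/-- The ruleset. -/
def ruleset : Finset (ℕ × ℕ) := {(1, 1), (2, 2), (3, 3), (0, 5), (6, 1)}

/-- The P-positions of the game on the diagonals `x - y = 5 k + 2`. -/
def P (k y : ℤ) : Prop :=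
  0 ≤ y ∧ 0 ≤ y + 5 * k + 2 ∧ PPosition ruleset ((y + 5 * k + 2).toNat, y.toNat)

lemma P_cast {k y : ℤ} {a b : ℕ} (hb : (b : ℤ) = y) (ha : (a : ℤ) = y + 5 * k + 2) :
    P k y ↔ PPosition ruleset (a, b) := by
  unfold P
  rw [← ha, ← hb]
  simp

lemma move_iff {k' y' : ℤ} {a b c d : ℕ} (hb : (b : ℤ) - d = y')
    (ha : (a : ℤ) - c = y' + 5 * k' + 2) :
    (c ≤ a → d ≤ b → ¬ PPosition ruleset (a - c, b - d)) ↔ ¬ P k' y' := by
  by_cases h : c ≤ a ∧ d ≤ b
  · rw [P_cast (k := k') (y := y') (a := a - c) (b := b - d) (by omega) (by omega)]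
    exact ⟨fun h' => h' h.1 h.2, fun h' _ _ => h'⟩
  · constructor
    · intro _ h'
      obtain ⟨h1, h2, _⟩ := h'
      omega
    · intro _ h1 h2
      exact absurd ⟨h1, h2⟩ h

lemma rule_P {k y : ℤ} (hy : 0 ≤ y) (hx : 0 ≤ y + 5 * k + 2) : Rule P k y := by
  unfold Rule
  obtain ⟨b, hb⟩ := Int.eq_ofNat_of_zero_le hy
  obtain ⟨a, ha⟩ := Int.eq_ofNat_of_zero_le hx
  rw [P_cast (a := a) (b := b) hb.symm ha.symm, PPosition,
    ← move_iff (k' := k) (y' := y - 1) (a := a) (b := b) (c := 1) (d := 1) (by omega) (by omega),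
    ← move_iff (k' := k) (y' := y - 2) (a := a) (b := b) (c := 2) (d := 2) (by omega) (by omega),
    ← move_iff (k' := k) (y' := y - 3) (a := a) (b := b) (c := 3) (d := 3) (by omega) (by omega),
    ← move_iff (k' := k + 1) (y' := y - 5) (a := a) (b := b) (c := 0) (d := 5)
      (by omega) (by omega),
    ← move_iff (k' := k - 1) (y' := y - 1) (a := a) (b := b) (c := 6) (d := 1)
      (by omega) (by omega)]
  constructor
  · intro h
    exact ⟨h (1, 1) (by decide) (by decide), h (2, 2) (by decide) (by decide),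
      h (3, 3) (by decide) (by decide), h (0, 5) (by decide) (by decide),
      h (6, 1) (by decide) (by decide)⟩
  · rintro ⟨h1, h2, h3, h4, h5⟩ s hs _
    simp only [ruleset, Finset.mem_insert, Finset.mem_singleton] at hs
    rcases hs with rfl | rfl | rfl | rfl | rfl
    · exact h1
    · exact h2
    · exact h3
    · exact h4
    · exact h5

/-- The start of the time window number `j`. -/
def R (j : ℕ) : ℤ := 12 * (j : ℤ) ^ 2 + 8 * j

lemma R_succ (j : ℕ) : R (j + 1) = R j + 24 * j + 20 := by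
  unfold R; push_cast; ring

lemma R_mod (j : ℕ) : R j % 4 = 0 := by
  unfold R
  have : 12 * (j : ℤ) ^ 2 + 8 * j = 4 * (3 * (j : ℤ) ^ 2 + 2 * j) := by ring
  omega

lemma R_ge (j : ℕ) : 20 * (j : ℤ) ≤ R j := by
  unfold R
  rcases Nat.eq_zero_or_pos j with h | h
  · subst h; norm_num
  · have : (1 : ℤ) ≤ j := by exact_mod_cast h
    nlinarith

lemma R_zero : R 0 = 0 := by unfold R; norm_num

lemma dom_F {j R k y : ℤ} (h : F j R k y) : 0 ≤ y ∧ 0 ≤ y + 5 * k + 2 := ⟨h.1, h.2.1⟩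

lemma dom_P {k y : ℤ} (h : P k y) : 0 ≤ y ∧ 0 ≤ y + 5 * k + 2 := ⟨h.1, h.2.1⟩

/-- The explicit description of the P-positions in window `j`. -/
theorem P_iff_F (j : ℕ) : ∀ y, R j - 5 ≤ y → y ≤ R (j + 1) → ∀ k, P k y ↔ F j (R j) k y := by
  induction j with
  | zero =>
    have h := agree (Q := P) (Q' := F 0 0) (a := 0) (b := 20) (fun k y => dom_P)
      (fun k y => dom_F)
      (fun y _ h2 k => ⟨fun h => absurd h.1 (by omega), fun h => absurd h.1 (by omega)⟩)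
      (fun y k _ _ h3 h4 => rule_P h3 h4)
      (fun y k h1 h2 _ h4 => rule_zero h1 h2 h4)
    intro y h1 h2 k
    rw [R_zero] at h1 ⊢
    rw [R_succ, R_zero] at h2
    have := h y (by omega) (by push_cast at h2; omega) k
    simpa using this
  | succ j ih =>
    have hR := R_succ j
    have hR' := R_succ (j + 1)
    have hm := R_mod j
    have hm' := R_mod (j + 1)
    have hg := R_ge j
    have hg' := R_ge (j + 1)
    push_cast at hR' hg'
    have hbase : ∀ y, R (j + 1) - 5 ≤ y → y ≤ R (j + 1) → ∀ k,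
        P k y ↔ F ((j + 1 : ℕ) : ℤ) (R (j + 1)) k y := by
      intro y h1 h2 k
      rw [ih y (by omega) h2 k, hR]
      have h3 := overlap (j := (j : ℤ)) (R := R j) (k := k) (y := y) (by omega) hm (by omega)
        (by omega)
      push_cast
      exact h3
    have h := agree (Q := P) (Q' := F ((j + 1 : ℕ) : ℤ) (R (j + 1))) (a := R (j + 1) + 1)
      (b := R (j + 1 + 1)) (fun k y => dom_P) (fun k y => dom_F)
      (fun y h1 h2 k => hbase y (by omega) (by omega) k)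
      (fun y k _ _ h3 h4 => rule_P h3 h4)
      (fun y k h1 h2 _ h4 => rule_pos (by push_cast; omega) (by push_cast; omega) hm' h1
        (by push_cast; omega) h4)
    intro y h1 h2 k
    rcases lt_or_ge y (R (j + 1) + 1) with h3 | h3
    · exact hbase y h1 (by omega) k
    · exact h y (by omega) h2 k

/-- The outcomes on the line `y = x - 2` are not eventually periodic. -/
theorem not_periodicOnLine : ¬ PeriodicOnLine ruleset 1 1 (-2) := by
  rintro ⟨T, x', hT, -, h⟩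
  have hper : ∀ y : ℕ, x' ≤ y → (P 0 y ↔ P 0 (y + T)) := by
    intro y hy
    have h1 := h (y + 2) y (y + T) (by omega) (by unfold line; push_cast; ring)
      (by unfold line; push_cast; ring)
    rw [P_cast (k := 0) (y := (y : ℤ)) (a := y + 2) (b := y) rfl (by push_cast; ring),
      P_cast (k := 0) (y := (y : ℤ) + T) (a := y + 2 + T) (b := y + T) (by push_cast; ring)
        (by push_cast; ring)]
    exact h1
  -- work in a late window
  obtain ⟨j, hj⟩ : ∃ j, j = x' + T + 2 := ⟨_, rfl⟩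
  have hR := R_succ j
  have hm := R_mod j
  have hg := R_ge j
  have hF := P_iff_F j
  -- the two test points
  obtain ⟨y₁, hy₁⟩ := Int.eq_ofNat_of_zero_le (show 0 ≤ R j + 1 + 2 * j by omega)
  obtain ⟨y₂, hy₂⟩ := Int.eq_ofNat_of_zero_le (show 0 ≤ R j + 1 + 6 * j by omega)
  have e1 := hper y₁ (by omega)
  have e2 := hper y₂ (by omega)
  rw [hF y₁ (by omega) (by omega), hF (y₁ + T) (by omega) (by omega),
    F_mid (by omega) (by omega), F_mid (by omega) (by omega)] at e1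
  rw [hF y₂ (by omega) (by omega), hF (y₂ + T) (by omega) (by omega),
    F_mid (by omega) (by omega), F_mid (by omega) (by omega)] at e2
  have f1 : G j (R j) 0 y₁ := (G1 (by omega)).2 ⟨by omega, by omega⟩
  have f2 : G j (R j) 0 y₂ := (G1 (by omega)).2 ⟨by omega, by omega⟩
  have g1 : G j (R j) 0 (y₁ + T) := (e1.1 ⟨by omega, by omega, f1⟩).2.2
  have g2 : G j (R j) 0 (y₂ + T) := (e2.1 ⟨by omega, by omega, f2⟩).2.2
  have hT4 : (T : ℤ) % 4 = 0 := by
    unfold G at g1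
    omega
  rw [G1 (by omega)] at g2
  omega

/-- **Answer to Q1 (positive).**  The finite two-dimensional ruleset
`{(1,1), (2,2), (3,3), (0,5), (6,1)}` is not eventually periodic. -/
theorem result : ∃ S : Finset (ℕ × ℕ), S = {(1, 1), (2, 2), (3, 3), (0, 5), (6, 1)} ∧
    (0, 0) ∉ S ∧ ¬ EventuallyPeriodic S := by
  refine ⟨_, rfl, by decide, ?_⟩
  intro h
  apply not_periodicOnLine
  apply h 1 1 (-2) (by norm_num) (by norm_num)
  apply Set.infinite_of_injective_forall_mem (f := fun n : ℕ => ((n : ℤ), (n : ℤ) - 2))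
  · intro a b hab
    simpa using (Prod.ext_iff.1 hab).1
  · intro n
    show (((n : ℤ) - 2 : ℤ) : ℚ) = line 1 1 (-2) (n : ℤ)
    unfold line
    push_cast
    ring

end Game

end Pool.Agent.Results.MP_1f0dde_co.BouncingRuleset
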